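import Pool.Agent.V7H10.KE
import Pool.Agent.Results.MP_6f1c57_nt.MultiplicativeValues

/-!
# The height inequality with proximity function near functions of the values of additive functions

For a curve which is finite over the `t`-line, divisors above `q ≥ 3` rational points, `r ≥ 2` and `0 ≤ κ ≤ q`, let
`Φ = f_1 ∘ ⋯ ∘ f_l` be a composition of functions dominated by the largest prime factor, such as the sum of the prime factors
with multiplicity, the largest prime factor, or the least `j` with `m ∣ j!`, let `G` have steps bounded below by a positive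
constant and growth at most `v ^ d`, for example `G v = α v ^ d`, and `σ ≥ 0` with `d e / (r + 1) + σ < 1`, where `e < r + 1` is
explicit. We show: there is a set `R` of natural numbers with at most `N exp (- (log N) ^ c)` elements up to `N`, for every
`c < 1 / (l + 1)` and all large `N`, such that for all `C₀` and all large `m` outside `R`: the inequality
`m_S(D, P) + (degree - κ) h(x) ≤ d(L) + ∑_{p ∈ S} log p - C₀` holds for ALL algebraic numbers `x` of degree `r` with
`|H(x) ^ (r (r + 1)) - G (Φ m)| ≤ Φ(m) ^ σ`, ALL points `P` of the curve above `x`, over any number field `L`, and ALL finite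
sets `S` of primes. A value of an additive function is taken very often, and so this does not follow from the size of the
exceptional set of the inequality (`ProximityAllCurves`). The tool is `Pool.Agent.N375.AV` (helper375); a diagonal argument
(`Pool.Agent.V7H10.Diag`) gives one exceptional set for all `C₀`.
-/

set_option autoImplicit false

namespace Pool.Agent.Results.MP_6f1c57_nt.AdditiveProximityH10

open Polynomial IsDedekindDomain NumberField
open ProximityAllCurves (height coord alpha exponent)
open ProximityWindows (Val)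
open MultiplicativeValues (Holds)
open Pool.Agent.N733.TG (Expanding expanding_pow)
open Pool.Agent.N375.AV (PD comp pd_sopfr pd_largest pd_kempner)
open Pool.Agent.V7H10.Diag (cnt)

/-- **Theorem.** For `η > 0` there is `c ≥ 1` such that the following holds. Let `A` be a Dedekind domain, finite over
`ℚ[t]` and containing it, let `r ≥ 2`, let `a_1, …, a_q` be `q ≥ 3` distinct rational numbers, let
`y_{j 0} = t - a_j, y_{j 1}, …` be elements of the radical of the ideal `(t - a_j)` and `κ ≤ q`. (For `κ ≥ 0` the exponent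
`e = exponent (alpha r c η) r q κ` is smaller than `r + 1`.) Let `f_1, …, f_l` be functions dominated by the largest prime
factor, `Φ = f_1 ∘ ⋯ ∘ f_l`, let `G` have steps `≥ a > 0` and growth at most `v ^ d`, and let `d max e 0 / (r + 1) + σ < 1`.
There is a set `R` of natural numbers with at most `N exp (- (log N) ^ γ)` elements up to `N`, for all `0 < γ < 1 / (l + 1)`
and all large `N`, such that for all `C₀` and all large `m ∉ R` the inequality holds for ALL algebraic numbers `x` of degree
`r` (with irreducible integral polynomial `g` and height `H = exp (height g)`) with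
`|H ^ (r (r + 1)) - G (Φ m)| ≤ Φ(m) ^ σ`, ALL points `P = φ` of the curve above `x` over any number field `L` and ALL finite
sets `S` of primes. The sum of the prime factors, the largest prime factor and the least `k` with `m ∣ k!` are examples of the
`f_i`, and `α v ^ d` with `α > 0`, `d ≥ 1` is an example of `G`. -/
theorem result :
    (∀ η : ℝ, 0 < η → ∃ c : ℝ, 1 ≤ c ∧
      ∀ (A : Type) [CommRing A] [IsDedekindDomain A] [Algebra ℚ A] [Algebra ℚ[X] A]
        [IsScalarTower ℚ ℚ[X] A] [Module.Finite ℚ[X] A] [FaithfulSMul ℚ[X] A]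
        (r q : ℕ), 2 ≤ r → 3 ≤ q → ∀ a : Fin q → ℚ, Function.Injective a →
      ∀ (u : Fin q → ℕ) (y : ∀ j, Fin (u j + 1) → A),
      (∀ j, y j 0 = coord A - algebraMap ℚ[X] A (C (a j))) →
      (∀ j i, y j i ∈ (Ideal.span {coord A - algebraMap ℚ[X] A (C (a j))}).radical) →
      ∀ κ : ℝ, κ ≤ q →
      (0 ≤ κ → exponent (alpha r c η) r q κ < r + 1) ∧
      ∀ fs : List (ℕ → ℕ), (∀ f ∈ fs, PD f) → ∀ (G : ℕ → ℝ) (d : ℝ), Expanding G d → ∀ σ : ℝ, 0 ≤ σ →
        d * (max (exponent (alpha r c η) r q κ) 0 / (r + 1)) + σ < 1 →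
        ∃ R : Set ℕ, (∀ γ : ℝ, 0 < γ → γ < (1 : ℝ) / (fs.length + 1) → ∃ N₀ : ℕ, ∀ N : ℕ, N₀ ≤ N →
            (cnt R N : ℝ) ≤ N * Real.exp (-(Real.log N ^ γ))) ∧
          ∀ C₀ : ℝ, ∃ m₀ : ℕ, ∀ m : ℕ, m₀ ≤ m → m ∉ R → ∀ (x : ℂ) (g : ℤ[X]),
            Irreducible g → g.natDegree = r → aeval x g = 0 →
            |Real.exp (height g) ^ (r * (r + 1)) - G (comp fs m)| ≤ (comp fs m : ℝ) ^ σ → Holds u y κ C₀ g x) ∧
    PD (fun m => m.primeFactorsList.sum) ∧ PD (fun m => m.primeFactors.sup id) ∧
    PD (fun m => sInf {k : ℕ | m ∣ k.factorial}) ∧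
    ∀ α d : ℝ, 0 < α → 1 ≤ d → Expanding (fun v => α * (v : ℝ) ^ d) d := by
  refine ⟨fun η hη => ?_, pd_sopfr, pd_largest, pd_kempner, fun α d hα hd => expanding_pow hα hd⟩
  obtain ⟨c, hc, hmain⟩ := ProximityAllCurves.result η hη
  refine ⟨c, hc, fun A _ _ _ _ _ _ _ r q hr hq a ha u y hy0 hy κ hκ =>
    ⟨fun h0 => ProximityWindows.expo_lt hr hq hc h0, fun fs hfs G d hG σ hσ h1 => ?_⟩⟩
  obtain ⟨R, hR, h2⟩ := Pool.Agent.V7H10.KE.addi (I := ℕ) (T := fun _ => ℝ)
    (fun i => Val u y r κ (-(i : ℝ))) (fun _ z => z)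
    (s := max (exponent (alpha r c η) r q κ) 0 / (r + 1))
    (div_nonneg (le_max_right _ _) (by positivity))
    (fun i ε hε => ProximityWindows.count u y hr κ (-(i : ℝ)) _
      (fun δ hδ => hmain A r q hr hq a ha u y hy0 hy κ (-(i : ℝ)) δ hκ hδ) ε hε) fs hfs hG hσ h1
  refine ⟨R, hR, fun C₀ => ?_⟩
  obtain ⟨i, hi⟩ := exists_nat_ge C₀
  obtain ⟨m₀, hm₀⟩ := h2 i
  refine ⟨m₀, fun m hm hmR x g hg hgr hgx hw L hL φ S hφ hS => ?_⟩
  by_contra hcon
  push Not at hcon
  refine hm₀ m hm hmR (Real.exp (height g) ^ (r * (r + 1))) hw ⟨g, x, ⟨hg, hgr, hgx, L, hL, φ, S, hφ, hS, ?_⟩, rfl⟩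
  linarith

end Pool.Agent.Results.MP_6f1c57_nt.AdditiveProximityH10
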