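import Pool.Agent.V7H60.CC.Asm
import Pool.Agent.V7H60.CV.All

/-!
# The height inequality for the points in a linear system on a curve and on all its covers

Let `K` be a number field and `X` a geometrically irreducible curve over `K` with a finite map
`t : X → ℙ¹`; `A` is the ring of functions on `X` without poles outside `t = ∞`. Let `f_1, …, f_m` be
elements of `A`, linearly independent over `K`. We construct ONE set `E` of density zero in
`ℙ^(m - 1)(K)` such that for all `c` not in `E` for which the zeros of `∑ c_i f_i` are one closed point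
`φ` of `X`, the height inequality holds for all points above `φ` on all covers `X'` of `X`, with all
divisors on `X'` above the closed points of `X` at which the linear system is wide, both with
truncated counting functions and with proximity functions, and the height of `φ` is bounded by its
discriminant.

`A'` is the ring of functions on `X'` without poles outside `t = ∞`, a Dedekind domain, finite over
`K[t]`. It can contain a number field `k` different from `K` (it is a curve over `k` then). The
points `P` of `X'` (not over `t = ∞`) over a number field `L` containing `K` are the homomorphisms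
`P : A' → L` over `K`. The point `P` is above the closed point `φ : A → M`, where `M` is the residue
field, if `L` contains `M` and `P` restricts to `φ` on `A`.
-/

set_option autoImplicit false

namespace Pool.Agent.Results.MP_6f1c57_nt.LinearSystemsH60

open Polynomial IsDedekindDomain NumberField
open scoped LinearAlgebra.Projectivization

/-- The function `t` on the curve with the ring of functions `A`. -/
noncomputable def coord (K A : Type) [Field K] [CommRing A] [Algebra K[X] A] : A :=
  algebraMap K[X] A X

/-- The absolute logarithmic height of `x`. -/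
noncomputable def height {L : Type} [Field L] [NumberField L] (x : L) : ℝ :=
  Height.logHeight₁ x / Module.finrank ℚ L

/-- The (absolute) logarithmic discriminant `d(L) = log |disc L| / [L : ℚ]`. -/
noncomputable def logDisc (L : Type) [Field L] [NumberField L] : ℝ :=
  Real.log |(NumberField.discr L : ℝ)| / Module.finrank ℚ L

/-- The member `∑ c_i f_i` of the linear system (up to a constant factor). -/
noncomputable def member {K A : Type} [Field K] [CommRing A] [Algebra K A] {m : ℕ} (f : Fin m → A)
    (c : ℙ K (Fin m → K)) : A :=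
  ∑ i, c.rep i • f i

/-- The homomorphism `φ` onto the field `M` is the (only) zero of the member `∑ c_i f_i`: its kernel
is generated by this member. -/
def IsZeroOf {K A : Type} [Field K] [CommRing A] [Algebra K A] {m : ℕ} (f : Fin m → A)
    (c : ℙ K (Fin m → K)) {M : Type} [Field M] [Algebra K M] (φ : A →ₐ[K] M) : Prop :=
  Function.Surjective φ ∧ RingHom.ker φ = Ideal.span {member f c}

/-- The degree over `K` of the closed subscheme with the ideal `I`. -/
noncomputable def deg (K : Type) {A : Type} [Field K] [CommRing A] [Algebra K A] (I : Ideal A) : ℝ :=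
  Module.finrank K (A ⧸ I)

/-- The rank of `A` over `K[t]`: the degree of the map `t`. -/
noncomputable def rk (K A : Type) [Field K] [CommRing A] [Algebra K[X] A] : ℝ :=
  Module.finrank K[X] A

/-- The linear system `f` is wide at the closed point `ψ : A → L` with the maximal ideal `I`: the
ratios of the values `ψ(f_i)` generate the residue field `L` over `K`, and these values span a space
of dimension more than `[L : K] / 2` over `K`. -/
def WideAt (K : Type) {A : Type} [Field K] [CommRing A] [Algebra K A] {m : ℕ} (f : Fin m → A)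
    (I : Ideal A) : Prop :=
  ∃ (L : Type) (_ : Field L) (_ : NumberField L) (_ : Algebra K L) (ψ : A →ₐ[K] L) (i₀ : Fin m),
    Function.Surjective ψ ∧ RingHom.ker ψ = I ∧ ψ (f i₀) ≠ 0 ∧
    IntermediateField.adjoin K (Set.range fun i => ψ (f i) / ψ (f i₀)) = ⊤ ∧
    Module.finrank K L < 2 * Module.finrank K (Submodule.span K (Set.range fun i => ψ (f i)))

/-- The functions `t ^ k b_i`, `k ≤ ν`. -/
noncomputable def powers (K : Type) {A : Type} [Field K] [CommRing A] [Algebra K[X] A] {N : ℕ}
    (b : Fin N → A) (ν : ℕ) (i : Fin (N * (ν + 1))) : A :=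
  coord K A ^ ((finProdFinEquiv.symm i).2 : ℕ) * b (finProdFinEquiv.symm i).1

/-- `max (0, - log max_i c_i)` -/
noncomputable def minusLog {s : ℕ} (c : Fin (s + 1) → ℝ) : ℝ := max 0 (-Real.log (⨆ i, c i))

open Classical in
/-- The proximity function `m_S(F, P)`, `F = ∑ F_j`, `F_j` with the equations `y_{j i} = 0`: the sum
over the infinite places `w` (with `mult w = [L_w : ℝ]`) and the primes `v` above the primes of `S`
of the local heights `∑_j max (0, - log max_i |y_{j i}(P)|)`, divided by `[L : ℚ]`. The absolute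
values are normalised so that the product formula holds: `|b|_v = N(v) ^ (- v(b))`. -/
noncomputable def proximity {K A' : Type} [Field K] [CommRing A'] [Algebra K A'] (S : Finset ℕ)
    {q : ℕ} {u : Fin q → ℕ} (y : ∀ j, Fin (u j + 1) → A') {L : Type} [Field L] [NumberField L]
    [Algebra K L] (P : A' →ₐ[K] L) : ℝ :=
  ((∑ w : InfinitePlace L, (w.mult : ℝ) * ∑ j, minusLog (fun i => w (P (y j i)))) +
    ∑ᶠ v : HeightOneSpectrum (𝓞 L), if ∃ p ∈ S, (p : 𝓞 L) ∈ v.asIdeal then
      ∑ j, minusLog (fun i => FinitePlace.mk v (P (y j i))) else 0) / Module.finrank ℚ L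

open Classical in
/-- The truncated counting function `N_S(D, P)`, `D = ∑ D_j`, `D_j` with the equations `h_{j l} = 0`
and `y_{j i} = 0`: the sum of `log N(v)` over the primes `v` of `L` which are not above `S`, at which
`t(P)` is integral and `P` meets some `D_j`, divided by `[L : ℚ]`. -/
noncomputable def counting {K A' : Type} [Field K] [CommRing A'] [Algebra K A'] [Algebra K[X] A']
    (S : Finset ℕ) {q : ℕ} {u v : Fin q → ℕ} (h : ∀ j, Fin (u j) → A') (y : ∀ j, Fin (v j) → A')
    {L : Type} [Field L] [NumberField L] [Algebra K L] (P : A' →ₐ[K] L) : ℝ :=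
  (∑ᶠ w : HeightOneSpectrum (𝓞 L), if (∀ p ∈ S, (p : 𝓞 L) ∉ w.asIdeal) ∧
      w.valuation L (P (coord K A')) ≤ 1 ∧
      ∃ j, (∀ l, w.valuation L (P (h j l)) < 1) ∧ ∀ i, w.valuation L (P (y j i)) < 1
    then Real.log (Ideal.absNorm w.asIdeal) else 0) / Module.finrank ℚ L

section

variable {K A A' : Type} [Field K] [CommRing A] [Algebra K A] [Algebra K[X] A] [CommRing A']
  [Algebra K A'] [Algebra K[X] A']

/-- The height inequality with proximity functions: there is `C` such that
`m_S(F, P) + (∑_j deg g_j / n - ∑_j dim (A' / (y_{j 0}, y_{j 1}, …)) / n') h(t(P)) + d(M) ≤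
d(L) + ε h(t(P)) + ∑_{p ∈ S} log p + C` for all number fields `M` and `L` containing `K`, `L`
containing `M`, all zeros `φ : A → M` of members `∑ c_i f_i` with `c` not in `E`, all points `P` over
`L` of the cover `A'` above `φ` at which the `y_{j 0}` do not vanish, and all finite sets `S` of
primes. -/
def ProximityInequality {m : ℕ} (f : Fin m → A) (E : Set (ℙ K (Fin m → K))) (π : A →ₐ[K[X]] A')
    {q : ℕ} {u s : Fin q → ℕ} (g : ∀ j, Fin (u j) → A) (y : ∀ j, Fin (s j + 1) → A') (ε : ℝ) :
    Prop :=
  ∃ C : ℝ, ∀ (M L : Type) [Field M] [NumberField M] [Field L] [NumberField L]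
    [Algebra K M] [Algebra K L] [Algebra M L] [IsScalarTower K M L] (φ : A →ₐ[K] M)
    (P : A' →ₐ[K] L) (c : ℙ K (Fin m → K)), (∀ a, P (π a) = algebraMap M L (φ a)) →
    c ∉ E → IsZeroOf f c φ → (∀ j, P (y j 0) ≠ 0) → ∀ S : Finset ℕ, (∀ p ∈ S, p.Prime) →
      proximity S y P +
        ((∑ j, deg K (Ideal.span (Set.range (g j)))) / rk K A -
          (∑ j, deg K (Ideal.span (Set.range (y j)))) / rk K A') * height (P (coord K A')) +
        logDisc M ≤
        logDisc L + ε * height (P (coord K A')) + ∑ p ∈ S, Real.log p + C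

/-- The height inequality with truncated counting functions: there is `C` such that
`(∑_j deg g_j / n - ∑_j dim (A' / I_j) / n' - ε) h(t(P)) + d(M) ≤
N_S(D, P) + d(L) + ∑_{p ∈ S} log p + C`, where `D_j` has the equations `π(g_{j l}) = y_{j i} = 0`, for
all number fields `M` and `L` containing `K`, `L` containing `M`, all zeros `φ : A → M` of members
`∑ c_i f_i` with `c` not in `E` which are not one of the points `g_j`, all points `P` over `L` of the
cover `A'` above `φ`, and all finite sets `S` of primes. -/
def CountingInequality {m : ℕ} (f : Fin m → A) (E : Set (ℙ K (Fin m → K))) (π : A →ₐ[K[X]] A')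
    {q : ℕ} {u v : Fin q → ℕ} (g : ∀ j, Fin (u j) → A) (y : ∀ j, Fin (v j) → A')
    (I : Fin q → Ideal A') (ε : ℝ) : Prop :=
  ∃ C : ℝ, ∀ (M L : Type) [Field M] [NumberField M] [Field L] [NumberField L]
    [Algebra K M] [Algebra K L] [Algebra M L] [IsScalarTower K M L] (φ : A →ₐ[K] M)
    (P : A' →ₐ[K] L) (c : ℙ K (Fin m → K)), (∀ a, P (π a) = algebraMap M L (φ a)) →
    c ∉ E → IsZeroOf f c φ → (∀ j, RingHom.ker φ ≠ Ideal.span (Set.range (g j))) →
    ∀ S : Finset ℕ, (∀ p ∈ S, p.Prime) →
      ((∑ j, deg K (Ideal.span (Set.range (g j)))) / rk K A -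
          (∑ j, deg K (I j)) / rk K A' - ε) * height (P (coord K A')) + logDisc M ≤
        counting S (fun j l => π (g j l)) y P + logDisc L + ∑ p ∈ S, Real.log p + C

/-- There is `C` such that `(G / n) h(t(φ)) ≤ d(M) + C` for all zeros `φ : A → M` of members
`∑ c_i f_i` with `c` not in `E`, `M` a number field. -/
def DiscriminantInequality {m : ℕ} (f : Fin m → A) (E : Set (ℙ K (Fin m → K))) (G : ℝ) : Prop :=
  ∃ C : ℝ, ∀ (M : Type) [Field M] [NumberField M] [Algebra K M] (φ : A →ₐ[K] M)
    (c : ℙ K (Fin m → K)), c ∉ E → IsZeroOf f c φ →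
    G / rk K A * height (φ (coord K A)) ≤ logDisc M + C

end

open Classical in
lemma proximity_eq {K A' : Type} [Field K] [CommRing A'] [Algebra K A'] (S : Finset ℕ) {q : ℕ}
    {u : Fin q → ℕ} (y : ∀ j, Fin (u j + 1) → A') {L : Type} [Field L] [NumberField L]
    [Algebra K L] (P : A' →ₐ[K] L)
    (hf : ∀ j, {v : HeightOneSpectrum (𝓞 L) |
      Pool.Agent.W223.AC.lamF (y j) (P : A' →+* L) v ≠ 0}.Finite) :
    proximity S y P = (∑ j, (∑ w : InfinitePlace L, (w.mult : ℝ) *
      Pool.Agent.W223.AC.lamI (y j) (P : A' →+* L) w +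
        Pool.Agent.W223.AC.mS S (y j) (P : A' →+* L))) / Module.finrank ℚ L := by
  unfold proximity
  refine congrArg (fun t : ℝ => t / Module.finrank ℚ L) ?_
  rw [Finset.sum_add_distrib]
  congr 1
  · rw [Finset.sum_comm]
    refine Finset.sum_congr rfl fun w _ => ?_
    rw [Finset.mul_sum]
    rfl
  · unfold Pool.Agent.W223.AC.mS
    rw [← finsum_sum_comm]
    · refine finsum_congr fun v => ?_
      split_ifs
      · rfl
      · rw [Finset.sum_const_zero]
    · intro j _
      refine (hf j).subset fun v hv => ?_
      rw [Function.mem_support] at hv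
      intro h
      apply hv
      rw [h, ite_self]

theorem majorant (e : ℕ → ℝ) (c : ℝ) (hc : 0 < c)
    (h : ∀ᶠ n : ℕ in Filter.atTop, e n ≤ c * (Real.log n) ^ 2) :
    ∃ R₀ : ℕ, ∀ R : ℕ, R₀ ≤ R → ∀ r : ℕ, r ≤ R → e r ≤ c * (Real.log R) ^ 2 := by
  obtain ⟨r₁, hr₁⟩ := Filter.eventually_atTop.1 h
  have h1 : Filter.Tendsto (fun n : ℕ => c * (Real.log n) ^ 2) Filter.atTop Filter.atTop := by
    refine Filter.Tendsto.const_mul_atTop hc ?_
    exact (Filter.tendsto_pow_atTop two_ne_zero).comp
      (Real.tendsto_log_atTop.comp tendsto_natCast_atTop_atTop)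
  obtain ⟨R₁, hR₁⟩ := Filter.eventually_atTop.1
    (h1.eventually_ge_atTop (∑ r ∈ Finset.range r₁, |e r|))
  refine ⟨max R₁ 1, fun R hR r hr => ?_⟩
  have hR1 : R₁ ≤ R := (le_max_left _ _).trans hR
  have hR2 : 1 ≤ R := (le_max_right _ _).trans hR
  rcases lt_or_ge r r₁ with h2 | h2
  · refine le_trans (le_trans (le_abs_self _) ?_) (hR₁ R hR1)
    exact Finset.single_le_sum (f := fun r => |e r|) (fun r _ => abs_nonneg _)
      (Finset.mem_range.2 h2)
  · refine (hr₁ r h2).trans (mul_le_mul_of_nonneg_left ?_ hc.le)
    rcases Nat.eq_zero_or_pos r with rfl | h3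
    · rw [Nat.cast_zero, Real.log_zero, zero_pow two_ne_zero]
      positivity
    · refine pow_le_pow_left₀ (Real.log_natCast_nonneg r) ?_ 2
      exact Real.log_le_log (by exact_mod_cast h3) (by exact_mod_cast hr)

/-- **The height inequality for linear systems on curves: one exceptional set for all covers and all
divisors.** Let `c₁ > 1 / (8 (log 2) ^ 2)`. There is `R₀` with the following properties. Let `K` be a
number field and `A` a domain, finite over `K[t]` and containing it, which remains a domain over the
algebraic closure of `K` (the ring of functions of a geometrically irreducible affine curve over `K`,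
finite over the `t`-line), of rank `n` over `K[t]`. Let `f_1, …, f_m`, `m ≥ 1`, be elements of `A`,
linearly independent over `K`. There is a set `E` in `ℙ^(m - 1)(K)` of density zero (it contains at
most `C exp (m U - √U)` points of logarithmic height at most `U` relative to `K`) such that:

Let `A'` be a Dedekind domain, finite over `K[t]` and containing it (the ring of functions of a smooth
affine curve, finite over the `t`-line), of rank `n'`, and `π : A → A'` a homomorphism over `K[t]`. Let
`g_1, …, g_q` be generators `g_j = (g_{j l})` of different maximal ideals of `A`, of degree `deg g_j`,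
at which `f` is wide. Let `ε > 0`. Let `P` be points over number fields `L` of the cover `A'` above the
zeros `φ : A → M` of members `∑ c_i f_i`, `c` not in `E`, and `S` finite sets of primes.

(1) Let `y_{j 0} = p_j(t), y_{j 1}, …` be elements of `A'` in the radical of the ideal generated by
`π(g_j)`, `p_j` monic polynomials, not constant. There is `C` such that, if `p_j(t(P)) ≠ 0`,
`m_S(F, P) + (∑_j deg g_j / n - ∑_j dim (A' / (y_{j 0}, y_{j 1}, …)) / n') h(t(P)) + d(M) ≤
d(L) + ε h(t(P)) + ∑_{p ∈ S} log p + C`.

(2) Let `y_{j i}` be elements and `I_j` nonzero ideals of `A'` such that all products of `y_{j i}`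
and elements of `I_j` are in the radical of the ideal generated by `π(g_j)`. There is `C` such that,
if `φ` is not the point `g_j`,
`(∑_j deg g_j / n - ∑_j dim (A' / I_j) / n' - ε) h(t(P)) + d(M) ≤
N_S(D, P) + d(L) + ∑_{p ∈ S} log p + C`, where `D_j` has the equations `π(g_{j l}) = y_{j i} = 0`.

(3) Let `R ≥ R₀` be such that all members of the linear system have at most `R` zeros, and let
`G ≥ 0` with `G c₁ (log R) ^ 2 + 2 n < m`. There is `C` such that `(G / n) h(t(φ)) ≤ d(M) + C`.

The conditions hold for the functions `t ^ k b_i`, `k ≤ ν`, `b` a basis of `A` over `K[t]`, and all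
closed points of degree at most `2 ν + 1`: (4) If `1` is among the `b_i`, then there is `c₀` such that
for all `ν ≥ 1` these `m = n (ν + 1)` functions are linearly independent over `K`, wide at all closed
points of degree at most `2 ν + 1`, and all members have at most `n ν + c₀` zeros. -/
theorem result (c₁ : ℝ) (hc₁ : 1 / (8 * (Real.log 2) ^ 2) < c₁) : ∃ R₀ : ℕ,
    ∀ (K A : Type) [Field K] [NumberField K] [CommRing A] [IsDomain A] [Algebra K A]
      [Algebra K[X] A] [IsScalarTower K K[X] A] [Module.Finite K[X] A] [FaithfulSMul K[X] A],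
      IsDomain (TensorProduct K (AlgebraicClosure K) A) →
    (∀ (m : ℕ), 1 ≤ m → ∀ (f : Fin m → A),
      LinearIndependent K f → ∃ E : Set (ℙ K (Fin m → K)),
    -- the exceptional set has density zero
    (∃ C : ℝ, ∀ U : ℝ, 0 ≤ U → {c : ℙ K (Fin m → K) | c ∈ E ∧ Height.logHeight c.rep ≤ U}.Finite ∧
      ({c : ℙ K (Fin m → K) | c ∈ E ∧ Height.logHeight c.rep ≤ U}.ncard : ℝ) ≤
        C * Real.exp (m * U - √U)) ∧
    (∀ (A' : Type) [CommRing A'] [IsDedekindDomain A'] [Algebra K A'] [Algebra K[X] A']
      [IsScalarTower K K[X] A'] [Module.Finite K[X] A'] [FaithfulSMul K[X] A']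
      (π : A →ₐ[K[X]] A') (q : ℕ) (u : Fin q → ℕ) (g : ∀ j, Fin (u j) → A),
      (∀ j, (Ideal.span (Set.range (g j))).IsMaximal) →
      (∀ i j, i ≠ j → Ideal.span (Set.range (g i)) ≠ Ideal.span (Set.range (g j))) →
      (∀ j, WideAt K f (Ideal.span (Set.range (g j)))) → ∀ ε : ℝ, 0 < ε →
      -- the height inequality with proximity functions
      (∀ (s : Fin q → ℕ) (p : Fin q → K[X]) (y : ∀ j, Fin (s j + 1) → A'),
        (∀ j, (p j).Monic ∧ 1 ≤ (p j).natDegree) → (∀ j, y j 0 = algebraMap K[X] A' (p j)) →
        (∀ j i, y j i ∈ (Ideal.span (Set.range fun l => π (g j l))).radical) →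
        ProximityInequality f E π g y ε) ∧
      -- the height inequality with truncated counting functions
      (∀ (v : Fin q → ℕ) (y : ∀ j, Fin (v j) → A') (I : Fin q → Ideal A'), (∀ j, I j ≠ ⊥) →
        (∀ j i, ∀ b ∈ I j, y j i * b ∈ (Ideal.span (Set.range fun l => π (g j l))).radical) →
        CountingInequality f E π g y I ε)) ∧
    -- the discriminants
    ∀ R : ℕ, R₀ ≤ R → (∀ c : ℙ K (Fin m → K), deg K (Ideal.span {member f c}) ≤ R) →
      ∀ G : ℝ, 0 ≤ G → G * (c₁ * (Real.log R) ^ 2) + 2 * rk K A < m →
        DiscriminantInequality f E G) ∧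
    -- an example
    ∀ (N : ℕ) (b : Module.Basis (Fin N) K[X] A), (∃ i, b i = 1) → ∃ c₀ : ℕ, ∀ ν : ℕ, 1 ≤ ν →
      LinearIndependent K (powers K b ν) ∧
      (∀ (L : Type) [Field L] [NumberField L] [Algebra K L] (ψ : A →ₐ[K] L),
        Function.Surjective ψ → Module.finrank K L ≤ 2 * ν + 1 →
        WideAt K (powers K b ν) (RingHom.ker ψ)) ∧
      ∀ c : ℙ K (Fin (N * (ν + 1)) → K),
        deg K (Ideal.span {member (powers K b ν) c}) ≤ (N * ν + c₀ : ℕ) := by
  classical
  obtain ⟨e, he1, he0, hmain⟩ := Pool.Agent.V7H60.CV.mainC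
  have hc₁0 : 0 < c₁ := lt_trans (by
    have : 0 < Real.log 2 := Real.log_pos one_lt_two
    positivity) hc₁
  obtain ⟨R₀, hR₀⟩ := majorant e c₁ hc₁0 (he1 c₁ hc₁)
  refine ⟨R₀, ?_⟩
  intro K A _ _ _ _ _ _ _ _ _ hgeo
  refine ⟨?_, ?_⟩
  swap
  · intro N b hb
    obtain ⟨c₀, hc₀⟩ := Pool.Agent.N776.CV.tVnC K A N b hb
    refine ⟨c₀, fun ν hν => ?_⟩
    have hpow : powers K b ν = Pool.Agent.N753.DR.Vn (K := K) b ν := by
      funext i
      unfold powers Pool.Agent.N753.DR.Vn coord
      rw [Algebra.smul_def, map_pow]
    rw [hpow]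
    obtain ⟨h1, h2, h3⟩ := hc₀ ν hν
    refine ⟨h1, ?_, ?_⟩
    · intro L _ _ _ ψ hψ hL
      obtain ⟨⟨i₀, h4, h5⟩, h6⟩ := h2 L ψ hψ hL
      exact ⟨L, inferInstance, inferInstance, inferInstance, ψ, i₀, hψ, rfl, h4, h5, h6⟩
    · intro c
      have h4 : Pool.Agent.N753.DR.mem (Pool.Agent.N753.DR.Vn (K := K) b ν) c.rep ≠ 0 := by
        intro h
        apply c.rep_nonzero
        funext i
        exact Fintype.linearIndependent_iff.1 h1 c.rep h i
      have h5 := h3 c.rep h4
      unfold deg
      exact_mod_cast h5
  intro m hm f hf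
  obtain ⟨r, E, ⟨c₀, hc₀, hr⟩, hdens, hT, hdisc, hH⟩ := hmain K A hgeo m hm f hf
  have hT' : Pool.Agent.V7H60.CC.Trunc f E := hT
  have hH' : Pool.Agent.V7H60.CC.Hgt (K := K) f := hH
  refine ⟨E, hdens, ?_, ?_⟩
  · intro A' _ _ _ _ _ _ _ π q u g hg hgg hwide ε hε
    have hw : ∀ j, ∃ (L : Type) (_ : Field L) (_ : NumberField L) (_ : Algebra K L)
        (ψ : A →ₐ[K] L), Function.Surjective ψ ∧
          RingHom.ker ψ = Ideal.span (Set.range (g j)) ∧
          Pool.Agent.N753.DR.Wide K (fun i => ψ (f i)) := by
      intro j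
      obtain ⟨L, i1, i2, i3, ψ, i₀, h1, h2, h3, h4, h5⟩ := hwide j
      exact ⟨L, i1, i2, i3, ψ, h1, h2, ⟨i₀, h3, h4⟩, h5⟩
    refine ⟨?_, ?_⟩
    · intro s p y hp hy0 hyr
      obtain ⟨C, hC, h⟩ := Pool.Agent.V7H60.CC.covP hT' hH' π q u s g p y hg hgg hw
        (fun j => (hp j).1) (fun j => (hp j).2) hy0 hyr ε hε
      refine ⟨C, fun M L _ _ _ _ _ _ _ _ φ P c hcomp hcE hz hPne S hS => ?_⟩
      obtain ⟨hfin, h5⟩ := h M L φ P c hcomp hcE hz.1 hz.2 hPne
      have h6 := h5 S hS
      have hL : (0 : ℝ) < Module.finrank ℚ L := by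
        exact_mod_cast Module.finrank_pos (R := ℚ) (M := L)
      rw [proximity_eq S y P hfin]
      have h7 : (Module.finrank M L : ℝ) * Real.log |(NumberField.discr M : ℝ)| =
          Module.finrank ℚ L * logDisc M := by
        have h1 := Module.finrank_mul_finrank ℚ M L
        have h2 : (0 : ℝ) < Module.finrank ℚ M := by
          exact_mod_cast Module.finrank_pos (R := ℚ) (M := M)
        have h3 : (Module.finrank ℚ L : ℝ) = Module.finrank ℚ M * Module.finrank M L := by
          exact_mod_cast h1.symm
        unfold logDisc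
        rw [h3]
        field_simp
      rw [h7] at h6
      obtain ⟨W, hW⟩ : ∃ W : ℝ, W = ∑ j, (∑ w : InfinitePlace L, (w.mult : ℝ) *
        Pool.Agent.W223.AC.lamI (y j) (P : A' →+* L) w +
          Pool.Agent.W223.AC.mS S (y j) (P : A' →+* L)) := ⟨_, rfl⟩
      obtain ⟨a, ha⟩ : ∃ a : ℝ, a = (∑ j, deg K (Ideal.span (Set.range (g j)))) / rk K A -
                (∑ j, deg K (Ideal.span (Set.range (y j)))) / rk K A' := ⟨_, rfl⟩
      obtain ⟨d, hd⟩ : ∃ d : ℝ, d = logDisc M := ⟨_, rfl⟩
      have h8 : (a - ε) * Height.logHeight₁ (P (coord K A')) +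
        Module.finrank ℚ L * d + W ≤ Real.log |(NumberField.discr L : ℝ)| +
          Module.finrank ℚ L * (C + ∑ p ∈ S, Real.log p) := by
        rw [hd, hW, ha]
        exact h6
      rw [← hW, ← ha, ← hd]
      unfold height
      have e2 : logDisc L = Real.log |(NumberField.discr L : ℝ)| / Module.finrank ℚ L := rfl
      rw [e2]
      have h9 := div_le_div_of_nonneg_right h8 hL.le
      have e3 : ((a - ε) * Height.logHeight₁ (P (coord K A')) +
        Module.finrank ℚ L * d + W) / Module.finrank ℚ L =
        a * (Height.logHeight₁ (P (coord K A')) / Module.finrank ℚ L) -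
          ε * (Height.logHeight₁ (P (coord K A')) / Module.finrank ℚ L) + d +
          W / Module.finrank ℚ L := by
        field_simp
      have e4 : (Real.log |(NumberField.discr L : ℝ)| +
          Module.finrank ℚ L * (C + ∑ p ∈ S, Real.log p)) / Module.finrank ℚ L =
          Real.log |(NumberField.discr L : ℝ)| / Module.finrank ℚ L +
            (C + ∑ p ∈ S, Real.log p) := by
        field_simp
      rw [e3, e4] at h9
      linarith
    · intro v y I hI hyI
      obtain ⟨C, hC, h⟩ := Pool.Agent.V7H60.CC.covT hT' hH' π q u v g y I hg hgg hw hI hyI ε hε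
      refine ⟨C, fun M L _ _ _ _ _ _ _ _ φ P c hcomp hcE hz hne S hS => ?_⟩
      have h6 := h M L φ P c hcomp hcE hz.1 hz.2 hne S hS
      have hL : (0 : ℝ) < Module.finrank ℚ L := by
        exact_mod_cast Module.finrank_pos (R := ℚ) (M := L)
      have h7 : (Module.finrank M L : ℝ) * Real.log |(NumberField.discr M : ℝ)| =
          Module.finrank ℚ L * logDisc M := by
        have h1 := Module.finrank_mul_finrank ℚ M L
        have h2 : (0 : ℝ) < Module.finrank ℚ M := by
          exact_mod_cast Module.finrank_pos (R := ℚ) (M := M)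
        have h3 : (Module.finrank ℚ L : ℝ) = Module.finrank ℚ M * Module.finrank M L := by
          exact_mod_cast h1.symm
        unfold logDisc
        rw [h3]
        field_simp
      rw [h7] at h6
      have h9 : counting S (fun j l => π (g j l)) y P =
          Pool.Agent.W223.CV.cc S (fun w : HeightOneSpectrum (𝓞 L) =>
            w.valuation L (P (algebraMap K[X] A' X)) ≤ 1 ∧
            ∃ j, (∀ l, w.valuation L (P (π (g j l))) < 1) ∧
              ∀ i, w.valuation L (P (y j i)) < 1) / Module.finrank ℚ L := by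
        unfold counting Pool.Agent.W223.CV.cc Pool.Agent.W223.CV.ct
        refine congrArg (fun t : ℝ => t / Module.finrank ℚ L) ?_
        refine finsum_congr fun w => ?_
        by_cases h : (∀ p ∈ S, (p : 𝓞 L) ∉ w.asIdeal) ∧ w.valuation L (P (coord K A')) ≤ 1 ∧
          ∃ j, (∀ l, w.valuation L (P (π (g j l))) < 1) ∧ ∀ i, w.valuation L (P (y j i)) < 1
        · exact (if_pos h).trans (if_pos h).symm
        · exact (if_neg h).trans (if_neg h).symm
      rw [h9]
      obtain ⟨W, hW⟩ : ∃ W : ℝ, W = Pool.Agent.W223.CV.cc S (fun w : HeightOneSpectrum (𝓞 L) =>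
            w.valuation L (P (algebraMap K[X] A' X)) ≤ 1 ∧
            ∃ j, (∀ l, w.valuation L (P (π (g j l))) < 1) ∧
              ∀ i, w.valuation L (P (y j i)) < 1) := ⟨_, rfl⟩
      obtain ⟨a, ha⟩ : ∃ a : ℝ, a = (∑ j, deg K (Ideal.span (Set.range (g j)))) / rk K A -
                (∑ j, deg K (I j)) / rk K A' - ε := ⟨_, rfl⟩
      obtain ⟨d, hd⟩ : ∃ d : ℝ, d = logDisc M := ⟨_, rfl⟩
      have h10 : a * Height.logHeight₁ (P (coord K A')) + Module.finrank ℚ L * d ≤
          W + Real.log |(NumberField.discr L : ℝ)| +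
            Module.finrank ℚ L * (C + ∑ p ∈ S, Real.log p) := by
        rw [hd, hW, ha]
        exact h6
      rw [← hW, ← ha, ← hd]
      unfold height
      have e2 : logDisc L = Real.log |(NumberField.discr L : ℝ)| / Module.finrank ℚ L := rfl
      rw [e2]
      have h11 := div_le_div_of_nonneg_right h10 hL.le
      have e3 : (a * Height.logHeight₁ (P (coord K A')) +
        Module.finrank ℚ L * d) / Module.finrank ℚ L =
        a * (Height.logHeight₁ (P (coord K A')) / Module.finrank ℚ L) + d := by
        field_simp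
      have e4 : (W + Real.log |(NumberField.discr L : ℝ)| +
            Module.finrank ℚ L * (C + ∑ p ∈ S, Real.log p)) / Module.finrank ℚ L =
          W / Module.finrank ℚ L + Real.log |(NumberField.discr L : ℝ)| / Module.finrank ℚ L +
            (C + ∑ p ∈ S, Real.log p) := by
        field_simp
      rw [e3, e4] at h11
      linarith
  · intro R hR hRdeg G hG hGm
    have hn : (0 : ℝ) < rk K A := Pool.Agent.V7H60.CC.rank_pos (K := K) (A := A)
    have hrR : r ≤ R := by
      have hc0' : c₀ ≠ 0 := by
        rintro rfl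
        exact hc₀ (by simp [Pool.Agent.N753.DR.mem])
      have h1 := hRdeg (Projectivization.mk K c₀ hc0')
      obtain ⟨a, ha⟩ := Projectivization.exists_smul_eq_mk_rep K c₀ hc0'
      have h2 : Ideal.span {member f (Projectivization.mk K c₀ hc0')} =
          Ideal.span {Pool.Agent.N753.DR.mem f c₀} := by
        have h3 : member f (Projectivization.mk K c₀ hc0') =
            algebraMap K A (a : K) * Pool.Agent.N753.DR.mem f c₀ := by
          unfold member Pool.Agent.N753.DR.mem
          rw [← ha, Finset.mul_sum]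
          refine Finset.sum_congr rfl fun i _ => ?_
          rw [← Algebra.smul_def, smul_smul]
          rfl
        rw [h3]
        exact Ideal.span_singleton_mul_left_unit ((a.isUnit).map (algebraMap K A)) _
      rw [h2] at h1
      unfold deg at h1
      rw [hr] at h1
      exact_mod_cast h1
    have h1 : G * e r + 2 * (Module.finrank K[X] A : ℝ) < m := by
      refine lt_of_le_of_lt ?_ hGm
      have h2 := mul_le_mul_of_nonneg_left (hR₀ R hR r hrR) hG
      unfold rk
      linarith
    obtain ⟨C₁, h2⟩ := hdisc G hG h1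
    obtain ⟨C₂, h3⟩ := hH
    refine ⟨|C₁| + G / rk K A * |C₂|, ?_⟩
    intro M _ _ _ φ c hcE hz
    have h4 := h2 M φ c hcE hz.1 hz.2
    have h5 : Height.logHeight₁ (φ (coord K A)) ≤ rk K A * Height.logHeight c.rep + C₂ :=
      h3 M φ c hz.1 hz.2
    have hM : (1 : ℝ) ≤ Module.finrank ℚ M := by
      exact_mod_cast Nat.succ_le_of_lt (Module.finrank_pos (R := ℚ) (M := M))
    have hM0 : (0 : ℝ) < Module.finrank ℚ M := by linarith
    have hGn : 0 ≤ G / rk K A := div_nonneg hG hn.le
    have h6 := mul_le_mul_of_nonneg_left h5 hGn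
    have h7 : G / rk K A * (rk K A * Height.logHeight c.rep + C₂) =
        G * Height.logHeight c.rep + G / rk K A * C₂ := by
      field_simp
    rw [h7] at h6
    have h8 := mul_le_mul_of_nonneg_left (le_abs_self C₂) hGn
    have h9 := le_abs_self C₁
    have h10 : G / rk K A * Height.logHeight₁ (φ (coord K A)) ≤
        Real.log |(NumberField.discr M : ℝ)| +
          Module.finrank ℚ M * (|C₁| + G / rk K A * |C₂|) := by
      have h11 : |C₁| + G / rk K A * |C₂| ≤
          Module.finrank ℚ M * (|C₁| + G / rk K A * |C₂|) := by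
        refine le_mul_of_one_le_left ?_ hM
        positivity
      linarith
    have h12 := div_le_div_of_nonneg_right h10 hM0.le
    unfold height logDisc
    have e1 : G / rk K A * Height.logHeight₁ (φ (coord K A)) / Module.finrank ℚ M =
        G / rk K A * (Height.logHeight₁ (φ (coord K A)) / Module.finrank ℚ M) := by ring
    have e2 : (Real.log |(NumberField.discr M : ℝ)| +
          Module.finrank ℚ M * (|C₁| + G / rk K A * |C₂|)) / Module.finrank ℚ M =
        Real.log |(NumberField.discr M : ℝ)| / Module.finrank ℚ M +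
          (|C₁| + G / rk K A * |C₂|) := by
      field_simp
    rw [e1, e2] at h12
    exact h12

end Pool.Agent.Results.MP_6f1c57_nt.LinearSystemsH60
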