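import Pool.Agent.V7H60.CV.LineCov

/-!
# The height inequality for the points above the numbers of degree `r`: one exceptional set for all
curves and all divisors over all extensions

Let `K` be a number field and `r ≥ 1`. We construct ONE set `E` of algebraic numbers `x` of degree
`r` over `K`, of density zero, such that for all number fields `k` containing `K`, all curves `C`
over `k` with a finite map `t : C → ℙ¹` over `k`, all reduced divisors on `C` above finitely many
points `a_j` of `k` of degree at most `2 r + 1` over `K`, the height inequality with truncated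
counting function and the height inequality with proximity function hold for all points `P` of `C`
above the numbers `x` of degree `r` not in `E`, of all degrees. By Belyi's theorem every curve and
every reduced divisor are of this form, even with `a_j` in `ℚ`.

`A` is the ring of functions on `C` with poles only over `∞`: a Dedekind domain, finite over `k[t]`,
of rank `N`. The points `P` of `C` (not over `∞`) over a number field `L` containing `k` are the
homomorphisms `φ : A → L` over `k`. The number `x` is the image of `t(P)` under a fixed Moebius map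
over `K`, so that any `K`-rational coordinate of the line can be used for `t`.
-/

set_option autoImplicit false

namespace Pool.Agent.Results.MP_6f1c57_nt.OneSetDegreeRH60

open Polynomial IsDedekindDomain NumberField

/-- The function `t` on the curve with the ring of functions `A`. -/
noncomputable def coord (k A : Type) [Field k] [CommRing A] [Algebra k[X] A] : A :=
  algebraMap k[X] A X

/-- The absolute logarithmic height of `x`. -/
noncomputable def height {L : Type} [Field L] [NumberField L] (x : L) : ℝ :=
  Height.logHeight₁ x / Module.finrank ℚ L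

/-- The (absolute) logarithmic discriminant `d(L) = log |disc L| / [L : ℚ]`. -/
noncomputable def logDisc (L : Type) [Field L] [NumberField L] : ℝ :=
  Real.log |(NumberField.discr L : ℝ)| / Module.finrank ℚ L

/-- The algebraic numbers of degree `r` over `K` and of absolute logarithmic height at most `T`, up
to conjugation over `K`: the set of their minimal polynomials. -/
def Numbers (K : Type) [Field K] [NumberField K] (r : ℕ) (T : ℝ) : Set K[X] :=
  {p | ∃ (M : Type) (_ : Field M) (_ : NumberField M) (_ : Algebra K M) (x : M),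
    Module.finrank K M = r ∧ (minpoly K x).natDegree = r ∧ minpoly K x = p ∧ height x ≤ T}

/-- The image `x = (α t + β) / (γ t + δ)` of `t` is finite, of degree `r` over `K` and not in
`E`. -/
def Above {K : Type} [Field K] (r : ℕ) (E : Set K[X]) (al be ga de : K) {L : Type} [Field L]
    [Algebra K L] (t : L) : Prop :=
  ∃ x : L, x * (algebraMap K L ga * t + algebraMap K L de) =
      algebraMap K L al * t + algebraMap K L be ∧
    algebraMap K L ga * t + algebraMap K L de ≠ 0 ∧ (minpoly K x).natDegree = r ∧ minpoly K x ∉ E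

/-- `max (0, - log max_i c_i)` -/
noncomputable def minusLog {s : ℕ} (c : Fin (s + 1) → ℝ) : ℝ := max 0 (-Real.log (⨆ i, c i))

open Classical in
/-- The proximity function `m_S(F, P)`, `F = ∑ F_j`, `F_j` with the equations `y_{j i} = 0`: the sum
over the infinite places `w` (with `mult w = [L_w : ℝ]`) and the primes `v` above the primes of `S`
of the local heights `∑_j max (0, - log max_i |y_{j i}(P)|)`, divided by `[L : ℚ]`. The absolute
values are normalised so that the product formula holds: `|b|_v = N(v) ^ (- v(b))`. -/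
noncomputable def proximity {k A : Type} [Field k] [CommRing A] [Algebra k A] (S : Finset ℕ)
    {q : ℕ} {u : Fin q → ℕ} (y : ∀ j, Fin (u j + 1) → A) {L : Type} [Field L] [NumberField L]
    [Algebra k L] (φ : A →ₐ[k] L) : ℝ :=
  ((∑ w : InfinitePlace L, (w.mult : ℝ) * ∑ j, minusLog (fun i => w (φ (y j i)))) +
    ∑ᶠ v : HeightOneSpectrum (𝓞 L), if ∃ p ∈ S, (p : 𝓞 L) ∈ v.asIdeal then
      ∑ j, minusLog (fun i => FinitePlace.mk v (φ (y j i))) else 0) / Module.finrank ℚ L

open Classical in
/-- The truncated counting function `N_S(D, P)`, `D = ∑ D_j`, `D_j` with the equations `t = a_j` and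
`y_{j i} = 0`: the sum of `log N(v)` over the primes `v` of `L` which are not above `S`, at which
`t(P)` is integral and `P` meets some `D_j`, divided by `[L : ℚ]`. -/
noncomputable def counting {k A : Type} [Field k] [CommRing A] [Algebra k A] [Algebra k[X] A]
    (S : Finset ℕ) {q : ℕ} (a : Fin q → k) {u : Fin q → ℕ} (y : ∀ j, Fin (u j) → A) {L : Type}
    [Field L] [NumberField L] [Algebra k L] (φ : A →ₐ[k] L) : ℝ :=
  (∑ᶠ v : HeightOneSpectrum (𝓞 L), if (∀ p ∈ S, (p : 𝓞 L) ∉ v.asIdeal) ∧
      v.valuation L (φ (coord k A)) ≤ 1 ∧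
      ∃ j, v.valuation L (φ (coord k A) - algebraMap k L (a j)) < 1 ∧
        ∀ i, v.valuation L (φ (y j i)) < 1
    then Real.log (Ideal.absNorm v.asIdeal) else 0) / Module.finrank ℚ L

open Classical in
lemma proximity_eq {k A : Type} [Field k] [CommRing A] [Algebra k A] (S : Finset ℕ) {q : ℕ}
    {u : Fin q → ℕ} (y : ∀ j, Fin (u j + 1) → A) {L : Type} [Field L] [NumberField L]
    [Algebra k L] (φ : A →ₐ[k] L)
    (hf : ∀ j, {v : HeightOneSpectrum (𝓞 L) |
      Pool.Agent.W223.AC.lamF (y j) (φ : A →+* L) v ≠ 0}.Finite) :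
    proximity S y φ = (∑ j, (∑ w : InfinitePlace L, (w.mult : ℝ) *
      Pool.Agent.W223.AC.lamI (y j) (φ : A →+* L) w +
        Pool.Agent.W223.AC.mS S (y j) (φ : A →+* L))) / Module.finrank ℚ L := by
  unfold proximity
  refine congrArg (fun t : ℝ => t / Module.finrank ℚ L) ?_
  rw [Finset.sum_add_distrib]
  congr 1
  · rw [Finset.sum_comm]
    refine Finset.sum_congr rfl fun w _ => ?_
    rw [Finset.mul_sum]
    rfl
  · unfold Pool.Agent.W223.AC.mS
    rw [← finsum_sum_comm]
    · refine finsum_congr fun v => ?_
      split_ifs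
      · rfl
      · rw [Finset.sum_const_zero]
    · intro j _
      refine (hf j).subset fun v hv => ?_
      rw [Function.mem_support] at hv
      intro h
      apply hv
      rw [h, ite_self]

theorem numbers_eq (K : Type) [Field K] [NumberField K] (r : ℕ) (T : ℝ) :
    Numbers K r T = {p : K[X] | Pool.Agent.N753.DR.AtH r (r * Module.finrank ℚ K * T) p} := by
  ext p
  have key : ∀ (M : Type) [Field M] [NumberField M] [Algebra K M] (x : M),
      Module.finrank K M = r →
      (height x ≤ T ↔ Height.logHeight₁ x ≤ r * Module.finrank ℚ K * T) := by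
    intro M _ _ _ x h
    have hfd : FiniteDimensional K M := FiniteDimensional.right ℚ K M
    have h1 : (Module.finrank ℚ M : ℝ) = r * Module.finrank ℚ K := by
      have := Module.finrank_mul_finrank ℚ K M
      rw [h] at this
      rw [mul_comm]
      exact_mod_cast this.symm
    have h2 : (0 : ℝ) < Module.finrank ℚ M := by exact_mod_cast Module.finrank_pos (R := ℚ) (M := M)
    unfold height
    rw [div_le_iff₀ h2, h1, mul_comm T]
  constructor
  · rintro ⟨M, _, _, _, x, h1, h2, h3, h4⟩
    exact ⟨M, inferInstance, inferInstance, inferInstance, x, h1, h2, h3, (key M x h1).1 h4⟩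
  · rintro ⟨M, _, _, _, x, h1, h2, h3, h4⟩
    exact ⟨M, inferInstance, inferInstance, inferInstance, x, h1, h2, h3, (key M x h1).2 h4⟩

/-- `d(k(t))` -/
theorem logDisc_adjoin {k L : Type} [Field k] [NumberField k] [Field L] [NumberField L]
    [Algebra k L] (t : L) :
    (Module.finrank (IntermediateField.adjoin k {t}) L : ℝ) * Pool.Agent.N753.DR.ldOf k t =
      Module.finrank ℚ L * logDisc (IntermediateField.adjoin k {t}) := by
  have h1 := Module.finrank_mul_finrank ℚ (IntermediateField.adjoin k {t}) L
  have h2 : (0 : ℝ) < Module.finrank ℚ (IntermediateField.adjoin k {t}) := by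
    exact_mod_cast Module.finrank_pos (R := ℚ) (M := IntermediateField.adjoin k {t})
  have h3 : (Module.finrank ℚ L : ℝ) = Module.finrank ℚ (IntermediateField.adjoin k {t}) *
      Module.finrank (IntermediateField.adjoin k {t}) L := by exact_mod_cast h1.symm
  unfold logDisc Pool.Agent.N753.DR.ldOf
  rw [h3]
  field_simp

/-- **One exceptional set for all curves and all divisors over all extensions of `K`, for the points
above the numbers of degree `r`.** Let `K` be a number field and `r ≥ 1`. There is a set `E` of
algebraic numbers of degree `r` over `K` (stable under conjugation), which contains only a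
proportion `O(exp (- √T))` of those of height at most `T`, with the following properties. Let `k` be
a number field containing `K`, and let `A` be a Dedekind domain, finite over `k[t]` and containing it
(the ring of functions of a smooth affine curve over `k`, finite over the `t`-line), of rank `N`. Let
`a_1, …, a_q` be distinct elements of `k` of degrees at most `2 r + 1` over `K`, `q ≥ 1`, and
`x = (α t + β) / (γ t + δ)` another coordinate on the line over `K`. Let `ε > 0`.

(1) Let `y_{j 0} = t - a_j, y_{j 1}, …` be elements of the radical of the ideal `(t - a_j)` of `A`,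
for example generators. There is `c` such that for all number fields `L` containing `k`, all points
`P` of the curve over `L` with `x(P)` of degree `r` over `K` and not in `E`, `t(P) ≠ a_j`, and all
finite sets `S` of primes
`m_S(F, P) + (q - (∑_j dim (A / (y_{j 0}, y_{j 1}, …))) / N) h(t(P)) + d(k(t(P))) ≤
d(L) + ε h(t(P)) + ∑_{p ∈ S} log p + c`.

(2) Let `y_{j i}` be functions and `D'_j` nonzero ideals such that all products of `y_{j i}` and
elements of `D'_j` are in the radical of `(t - a_j)`: the reduced fibre over `a_j` is contained in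
the union of `D_j = {y_{j 1} = y_{j 2} = … = 0}` and the zeros of `D'_j`. There is `c` such that for
the same points and `S`
`(q - (∑_j dim (A / D'_j)) / N - ε) h(t(P)) + d(k(t(P))) ≤
N_S(D, P) + d(L) + ∑_{p ∈ S} log p + c`. -/
theorem result (K : Type) [Field K] [NumberField K] (r : ℕ) (hr : 1 ≤ r) : ∃ E : Set K[X],
    (∃ c C T₀ : ℝ, 0 < c ∧ ∀ T : ℝ, T₀ ≤ T → (Numbers K r T).Finite ∧
      c * Real.exp ((r + 1) * r * Module.finrank ℚ K * T) ≤ ((Numbers K r T).ncard : ℝ) ∧
      ((E ∩ Numbers K r T).ncard : ℝ) ≤ C * Real.exp (-√T) * ((Numbers K r T).ncard : ℝ)) ∧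
    ∀ (k : Type) [Field k] [NumberField k] [Algebra K k] (A : Type) [CommRing A]
      [IsDedekindDomain A] [Algebra k A] [Algebra k[X] A] [IsScalarTower k k[X] A]
      [Module.Finite k[X] A] [FaithfulSMul k[X] A] (q : ℕ), 1 ≤ q → ∀ (a : Fin q → k),
      Function.Injective a → (∀ j, (minpoly K (a j)).natDegree ≤ 2 * r + 1) →
      ∀ (al be ga de : K), al * de - be * ga ≠ 0 → ∀ ε : ℝ, 0 < ε →
      (∀ (u : Fin q → ℕ) (y : ∀ j, Fin (u j + 1) → A),
        (∀ j, y j 0 = coord k A - algebraMap k A (a j)) →
        (∀ j i, y j i ∈ (Ideal.span {coord k A - algebraMap k A (a j)}).radical) →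
        ∃ c : ℝ, ∀ (L : Type) [Field L] [NumberField L] [Algebra K L] [Algebra k L]
          [IsScalarTower K k L] (φ : A →ₐ[k] L), Above r E al be ga de (φ (coord k A)) →
          (∀ j, φ (coord k A) ≠ algebraMap k L (a j)) → ∀ S : Finset ℕ, (∀ p ∈ S, p.Prime) →
            proximity S y φ +
              (q - (∑ j, (Module.finrank k (A ⧸ Ideal.span (Set.range (y j))) : ℝ)) /
                Module.finrank k[X] A) * height (φ (coord k A)) +
              logDisc (IntermediateField.adjoin k {φ (coord k A)}) ≤
              logDisc L + ε * height (φ (coord k A)) + ∑ p ∈ S, Real.log p + c) ∧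
      (∀ (u : Fin q → ℕ) (y : ∀ j, Fin (u j) → A) (D' : Fin q → Ideal A), (∀ j, D' j ≠ ⊥) →
        (∀ j i, ∀ e ∈ D' j, y j i * e ∈ (Ideal.span {coord k A - algebraMap k A (a j)}).radical) →
        ∃ c : ℝ, ∀ (L : Type) [Field L] [NumberField L] [Algebra K L] [Algebra k L]
          [IsScalarTower K k L] (φ : A →ₐ[k] L), Above r E al be ga de (φ (coord k A)) →
          (∀ j, φ (coord k A) ≠ algebraMap k L (a j)) → ∀ S : Finset ℕ, (∀ p ∈ S, p.Prime) →
            (q - (∑ j, (Module.finrank k (A ⧸ D' j) : ℝ)) / Module.finrank k[X] A - ε) *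
                height (φ (coord k A)) +
              logDisc (IntermediateField.adjoin k {φ (coord k A)}) ≤
              counting S a y φ + logDisc L + ∑ p ∈ S, Real.log p + c) := by
  classical
  obtain ⟨E, hE1, hE2⟩ := Pool.Agent.V7H60.CV.vkG K r hr
  have hE : Pool.Agent.V7H60.CV.ExcG K r E := hE2
  refine ⟨E, ?_, ?_⟩
  · obtain ⟨c, c', U₀, hc, h⟩ := Pool.Agent.V7H60.CV.density K r hr E hE1
    have hd1 : (1 : ℝ) ≤ r * Module.finrank ℚ K := by
      have h1 : (1 : ℝ) ≤ r := by exact_mod_cast hr
      have h2 : (1 : ℝ) ≤ Module.finrank ℚ K := by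
        exact_mod_cast Nat.succ_le_of_lt (Module.finrank_pos (R := ℚ) (M := K))
      nlinarith
    refine ⟨c, 2 / c, max U₀ 0, hc, fun T hT => ?_⟩
    have hT1 : U₀ ≤ T := (le_max_left _ _).trans hT
    have hT0 : 0 ≤ T := (le_max_right _ _).trans hT
    have hTU : T ≤ r * Module.finrank ℚ K * T := le_mul_of_one_le_left hT0 hd1
    obtain ⟨h1, h2, -, h4⟩ := h (r * Module.finrank ℚ K * T) (hT1.trans hTU)
    rw [numbers_eq K r]
    refine ⟨h1, ?_, ?_⟩
    · have e1 : ((r : ℝ) + 1) * r * Module.finrank ℚ K * T =
        (r + 1) * (r * Module.finrank ℚ K * T) := by ring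
      rw [e1]
      exact h2
    · refine h4.trans ?_
      refine mul_le_mul_of_nonneg_right ?_ (Nat.cast_nonneg _)
      refine mul_le_mul_of_nonneg_left ?_ (by positivity)
      exact Real.exp_le_exp.2 (neg_le_neg (Real.sqrt_le_sqrt hTU))
  intro k _ _ _ A _ _ _ _ _ _ _ q hq a ha hdeg al be ga de hdet ε hε
  refine ⟨?_, ?_⟩
  · intro u y hy0 hyr
    obtain ⟨C, hC, h⟩ := Pool.Agent.V7H60.CV.covProx hE k A hq a ha hdeg al be ga de hdet u y hy0
      hyr (ε / 2) (by positivity)
    refine ⟨C, fun L _ _ _ _ _ φ hab hta S hS => ?_⟩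
    obtain ⟨x, h1, h2, h3, h4⟩ := hab
    obtain ⟨hfin, h5⟩ := h L φ x h1 h2 h3 h4 hta
    have h6 := h5 S hS
    have hL : (0 : ℝ) < Module.finrank ℚ L := by exact_mod_cast Module.finrank_pos (R := ℚ) (M := L)
    rw [proximity_eq S y φ hfin]
    have h7 : (Module.finrank (IntermediateField.adjoin k {φ (coord k A)}) L : ℝ) *
      Pool.Agent.N753.DR.ldOf k (φ (coord k A)) =
      Module.finrank ℚ L * logDisc (IntermediateField.adjoin k {φ (coord k A)}) :=
      logDisc_adjoin _
    obtain ⟨W, hW⟩ : ∃ W : ℝ, W = ∑ j, (∑ w : InfinitePlace L, (w.mult : ℝ) *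
      Pool.Agent.W223.AC.lamI (y j) (φ : A →+* L) w +
        Pool.Agent.W223.AC.mS S (y j) (φ : A →+* L)) := ⟨_, rfl⟩
    obtain ⟨g, hg⟩ : ∃ g : ℝ, g = (∑ j, (Module.finrank k (A ⧸ Ideal.span (Set.range (y j))) : ℝ)) /
                Module.finrank k[X] A := ⟨_, rfl⟩
    obtain ⟨d, hd⟩ : ∃ d : ℝ, d = logDisc (IntermediateField.adjoin k {φ (coord k A)}) := ⟨_, rfl⟩
    rw [← hW, ← hg] at h6 ⊢
    have h8 : (q - g - 2 * (ε / 2)) * Height.logHeight₁ (φ (coord k A)) +
      Module.finrank ℚ L * d + W ≤ Real.log |(NumberField.discr L : ℝ)| +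
        Module.finrank ℚ L * (C + ∑ p ∈ S, Real.log p) := by
      rw [hd, ← h7]
      exact h6
    rw [← hd]
    unfold height
    have e2 : logDisc L = Real.log |(NumberField.discr L : ℝ)| / Module.finrank ℚ L := rfl
    rw [e2]
    have h9 := div_le_div_of_nonneg_right h8 hL.le
    have e3 : ((q - g - 2 * (ε / 2)) * Height.logHeight₁ (φ (coord k A)) +
      Module.finrank ℚ L * d + W) / Module.finrank ℚ L =
      (q - g) * (Height.logHeight₁ (φ (coord k A)) / Module.finrank ℚ L) -
        ε * (Height.logHeight₁ (φ (coord k A)) / Module.finrank ℚ L) + d +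
        W / Module.finrank ℚ L := by
      field_simp
    have e4 : (Real.log |(NumberField.discr L : ℝ)| +
        Module.finrank ℚ L * (C + ∑ p ∈ S, Real.log p)) / Module.finrank ℚ L =
        Real.log |(NumberField.discr L : ℝ)| / Module.finrank ℚ L + (C + ∑ p ∈ S, Real.log p) := by
      field_simp
    rw [e3, e4] at h9
    linarith
  · intro u y D' hD' hyD'
    obtain ⟨C, hC, h⟩ := Pool.Agent.V7H60.CV.covTrunc hE k A hq a ha hdeg al be ga de hdet u y D'
      hD' hyD' (ε / 2) (by positivity)
    refine ⟨C, fun L _ _ _ _ _ φ hab hta S hS => ?_⟩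
    obtain ⟨x, h1, h2, h3, h4⟩ := hab
    have h6 := h L φ x h1 h2 h3 h4 hta
    have hL : (0 : ℝ) < Module.finrank ℚ L := by exact_mod_cast Module.finrank_pos (R := ℚ) (M := L)
    have h7 : (Module.finrank (IntermediateField.adjoin k {φ (coord k A)}) L : ℝ) *
      Pool.Agent.N753.DR.ldOf k (φ (coord k A)) =
      Module.finrank ℚ L * logDisc (IntermediateField.adjoin k {φ (coord k A)}) :=
      logDisc_adjoin _
    have hQfin : {v : HeightOneSpectrum (𝓞 L) | v.valuation L (φ (coord k A)) ≤ 1 ∧
        ∃ j, v.valuation L (φ (coord k A) - algebraMap k L (a j)) < 1 ∧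
          ∀ i, v.valuation L (φ (y j i)) < 1}.Finite := by
      refine (Pool.Agent.Y729.RV.nr_fin ∅ hta).subset ?_
      rintro v ⟨g1, j, g2, -⟩
      exact ⟨fun p hp => absurd hp (Finset.notMem_empty p), g1, j, g2⟩
    have h8 := Pool.Agent.W223.AC.cc_outside Pool.Agent.W803.AC.t S hS _ hQfin
    have h9 : counting S a y φ = Pool.Agent.W223.CV.cc S (fun v : HeightOneSpectrum (𝓞 L) =>
        v.valuation L (φ (coord k A)) ≤ 1 ∧
        ∃ j, v.valuation L (φ (coord k A) - algebraMap k L (a j)) < 1 ∧
          ∀ i, v.valuation L (φ (y j i)) < 1) / Module.finrank ℚ L := by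
      unfold counting Pool.Agent.W223.CV.cc Pool.Agent.W223.CV.ct
      refine congrArg (fun t : ℝ => t / Module.finrank ℚ L) ?_
      refine finsum_congr fun v => ?_
      by_cases h : (∀ p ∈ S, (p : 𝓞 L) ∉ v.asIdeal) ∧ v.valuation L (φ (coord k A)) ≤ 1 ∧
        ∃ j, v.valuation L (φ (coord k A) - algebraMap k L (a j)) < 1 ∧
          ∀ i, v.valuation L (φ (y j i)) < 1
      · exact (if_pos h).trans (if_pos h).symm
      · exact (if_neg h).trans (if_neg h).symm
    rw [h9]
    obtain ⟨W, hW⟩ : ∃ W : ℝ, W = Pool.Agent.W223.CV.cc S (fun v : HeightOneSpectrum (𝓞 L) =>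
        v.valuation L (φ (coord k A)) ≤ 1 ∧
        ∃ j, v.valuation L (φ (coord k A) - algebraMap k L (a j)) < 1 ∧
          ∀ i, v.valuation L (φ (y j i)) < 1) := ⟨_, rfl⟩
    obtain ⟨g, hg⟩ : ∃ g : ℝ, g = (∑ j, (Module.finrank k (A ⧸ D' j) : ℝ)) /
                Module.finrank k[X] A := ⟨_, rfl⟩
    obtain ⟨d, hd⟩ : ∃ d : ℝ, d = logDisc (IntermediateField.adjoin k {φ (coord k A)}) := ⟨_, rfl⟩
    rw [← hW] at h8 ⊢
    have h10 : (q - g - 2 * (ε / 2)) * Height.logHeight₁ (φ (coord k A)) +
      Module.finrank ℚ L * d ≤ W + Module.finrank ℚ L * ∑ p ∈ S, Real.log p +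
        Real.log |(NumberField.discr L : ℝ)| + Module.finrank ℚ L * C := by
      rw [hd, ← h7, hg]
      exact h6.trans (add_le_add (add_le_add h8 le_rfl) le_rfl)
    rw [← hd, ← hg]
    unfold height
    have e2 : logDisc L = Real.log |(NumberField.discr L : ℝ)| / Module.finrank ℚ L := rfl
    rw [e2]
    have h11 := div_le_div_of_nonneg_right h10 hL.le
    have e3 : ((q - g - 2 * (ε / 2)) * Height.logHeight₁ (φ (coord k A)) +
      Module.finrank ℚ L * d) / Module.finrank ℚ L =
      (q - g - ε) * (Height.logHeight₁ (φ (coord k A)) / Module.finrank ℚ L) + d := by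
      field_simp
    have e4 : (W + Module.finrank ℚ L * ∑ p ∈ S, Real.log p +
        Real.log |(NumberField.discr L : ℝ)| + Module.finrank ℚ L * C) / Module.finrank ℚ L =
        W / Module.finrank ℚ L + ∑ p ∈ S, Real.log p +
          Real.log |(NumberField.discr L : ℝ)| / Module.finrank ℚ L + C := by
      field_simp
    rw [e3, e4] at h11
    linarith

end Pool.Agent.Results.MP_6f1c57_nt.OneSetDegreeRH60
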