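import Pool.Agent.V7H10.KE
import Pool.Agent.Results.MP_6f1c57_nt.MultiplicativeValues

/-!
# The height inequality with proximity function near the orbits of Euler's function

For a curve which is finite over the `t`-line, divisors above `q ≥ 3` rational points, `r ≥ 2` and `0 ≤ κ ≤ q`, let `f` be a
positive multiplicative function of at most polynomial growth such that `f p ≤ M p` for the large primes `p`, with different
values at different large primes, for example the identity, Euler's function or the sum of the divisors, and let `φ_j` be the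
`j`-th iterate of Euler's function. Let `G` have steps bounded below by a positive constant and growth at most `v ^ d`, for
example `G v = α v ^ d`, and `σ ≥ 0` with `d e / (r + 1) + σ < 1`, where `e < r + 1` is explicit. We show: there are a set `M` of
natural numbers of density one and `J(m)` tending to infinity such that for all `C₀`, for all large `m` in `M` and all
`j ≤ J(m)`, with `v = f(φ_j(m))`: the inequality `m_S(D, P) + (degree - κ) h(x) ≤ d(L) + ∑_{p ∈ S} log p - C₀` holds for ALL
algebraic numbers `x` of degree `r` with `|H(x) ^ (r (r + 1)) - G v| ≤ v ^ σ`, ALL points `P` of the curve above `x`, over any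
number field `L`, and ALL finite sets `S` of primes. The members of the orbits form an extremely thin set with very large
multiplicities, and so this does not follow from the size of the exceptional set of the inequality
(`ProximityAllCurves`). The tool is `Pool.Agent.N760.IT` (helper760); a diagonal argument (`Pool.Agent.V7H10.Diag`) gives one
set of density one for all `C₀`.
-/

set_option autoImplicit false

namespace Pool.Agent.Results.MP_6f1c57_nt.TotientOrbitProximityH10

open Polynomial IsDedekindDomain NumberField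
open ProximityAllCurves (height coord alpha exponent)
open ProximityWindows (Val)
open MultiplicativeValues (Holds)
open Pool.Agent.N733.TG (LM Expanding lm_totient lm_sigma expanding_pow)
open Pool.Agent.N760.IT (orb lm_id)
open Pool.Agent.N826.IT.Orb (AlmostAll)

/-- **Theorem.** For `η > 0` there is `c ≥ 1` such that the following holds. Let `A` be a Dedekind domain, finite over
`ℚ[t]` and containing it, let `r ≥ 2`, let `a_1, …, a_q` be `q ≥ 3` distinct rational numbers, let
`y_{j 0} = t - a_j, y_{j 1}, …` be elements of the radical of the ideal `(t - a_j)` and `κ ≤ q`. (For `κ ≥ 0` the exponent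
`e = exponent (alpha r c η) r q κ` is smaller than `r + 1`.) Let `f` be multiplicative and positive, of at most polynomial
growth, with `f p ≤ M p` at the large primes, and injective there, let `G` have steps `≥ a > 0` and growth at most `v ^ d`, and
let `d max e 0 / (r + 1) + σ < 1`. There are a set `M` of natural numbers of density one and `J(m)` tending to infinity such
that for all `C₀` and all large `m ∈ M`, for all `j ≤ J(m)`, with `v = orb f j m = f(φ_j(m))`, `φ_j` the `j`-th iterate of
Euler's function, the inequality holds for ALL algebraic numbers `x` of degree `r` (with irreducible integral polynomial `g`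
and height `H = exp (height g)`) with `|H ^ (r (r + 1)) - G v| ≤ v ^ σ`, ALL points `P = φ` of the curve above `x` over any
number field `L` and ALL finite sets `S` of primes. The identity, Euler's function and the sum of the divisors are examples of
such functions `f`, and `α v ^ d` with `α > 0`, `d ≥ 1` is an example of `G`. -/
theorem result :
    (∀ η : ℝ, 0 < η → ∃ c : ℝ, 1 ≤ c ∧
      ∀ (A : Type) [CommRing A] [IsDedekindDomain A] [Algebra ℚ A] [Algebra ℚ[X] A]
        [IsScalarTower ℚ ℚ[X] A] [Module.Finite ℚ[X] A] [FaithfulSMul ℚ[X] A]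
        (r q : ℕ), 2 ≤ r → 3 ≤ q → ∀ a : Fin q → ℚ, Function.Injective a →
      ∀ (u : Fin q → ℕ) (y : ∀ j, Fin (u j + 1) → A),
      (∀ j, y j 0 = coord A - algebraMap ℚ[X] A (C (a j))) →
      (∀ j i, y j i ∈ (Ideal.span {coord A - algebraMap ℚ[X] A (C (a j))}).radical) →
      ∀ κ : ℝ, κ ≤ q →
      (0 ≤ κ → exponent (alpha r c η) r q κ < r + 1) ∧
      ∀ f : ℕ → ℕ, LM f → ∀ (G : ℕ → ℝ) (d : ℝ), Expanding G d → ∀ σ : ℝ, 0 ≤ σ →
        d * (max (exponent (alpha r c η) r q κ) 0 / (r + 1)) + σ < 1 →
        ∃ (M : Set ℕ) (J : ℕ → ℕ), AlmostAll (fun m => m ∈ M) ∧ Filter.Tendsto J Filter.atTop Filter.atTop ∧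
          ∀ C₀ : ℝ, ∃ m₀ : ℕ, ∀ m : ℕ, m₀ ≤ m → m ∈ M → ∀ j ≤ J m, ∀ (x : ℂ) (g : ℤ[X]),
            Irreducible g → g.natDegree = r → aeval x g = 0 →
            |Real.exp (height g) ^ (r * (r + 1)) - G (orb f j m)| ≤ (orb f j m : ℝ) ^ σ → Holds u y κ C₀ g x) ∧
    (LM (fun m => m) ∧ LM Nat.totient ∧ LM (fun m => ∑ d ∈ m.divisors, d)) ∧
    ∀ α d : ℝ, 0 < α → 1 ≤ d → Expanding (fun v => α * (v : ℝ) ^ d) d := by
  refine ⟨fun η hη => ?_, ⟨lm_id, lm_totient, lm_sigma⟩, fun α d hα hd => expanding_pow hα hd⟩
  obtain ⟨c, hc, hmain⟩ := ProximityAllCurves.result η hη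
  refine ⟨c, hc, fun A _ _ _ _ _ _ _ r q hr hq a ha u y hy0 hy κ hκ =>
    ⟨fun h0 => ProximityWindows.expo_lt hr hq hc h0, fun f hf G d hG σ hσ h1 => ?_⟩⟩
  obtain ⟨M, J, hM, hJ, h2⟩ := Pool.Agent.V7H10.KE.orbit (I := ℕ) (T := fun _ => ℝ)
    (fun i => Val u y r κ (-(i : ℝ))) (fun _ z => z)
    (s := max (exponent (alpha r c η) r q κ) 0 / (r + 1))
    (div_nonneg (le_max_right _ _) (by positivity))
    (fun i ε hε => ProximityWindows.count u y hr κ (-(i : ℝ)) _
      (fun δ hδ => hmain A r q hr hq a ha u y hy0 hy κ (-(i : ℝ)) δ hκ hδ) ε hε) hf hG hσ h1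
  refine ⟨M, J, hM, hJ, fun C₀ => ?_⟩
  obtain ⟨i, hi⟩ := exists_nat_ge C₀
  obtain ⟨m₀, hm₀⟩ := h2 i
  refine ⟨m₀, fun m hm hmM j hj x g hg hgr hgx hw L hL φ S hφ hS => ?_⟩
  by_contra hcon
  push Not at hcon
  refine hm₀ m hm hmM j hj (Real.exp (height g) ^ (r * (r + 1))) hw ⟨g, x, ⟨hg, hgr, hgx, L, hL, φ, S, hφ, hS, ?_⟩, rfl⟩
  linarith

end Pool.Agent.Results.MP_6f1c57_nt.TotientOrbitProximityH10
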